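import Pool.Agent.Helper79.GU.St1

/-! Project GU, module FLE (sizes and fields), by helper57. -/

set_option autoImplicit false

namespace Pool.Agent.Helper57.GU

open Pool.Agent.Helper79.GU
open Pool.Agent.Helper19.SK Pool.Agent.Helper73.DC Pool.Agent.Helper79.GS Pool.Agent.Helper79.GT Finset
open scoped Classical

private lemma bmin_le (b : ℕ) (p : ℕ → Prop) : bmin b p ≤ b := by
  unfold bmin
  calc _ ≤ ∑ _j ∈ range b, 1 := by
        refine Finset.sum_le_sum fun j _ => ?_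
        split_ifs <;> omega
    _ = b := by simp

private lemma n_le (w : List (Fin 5)) : nV w ≤ w.length := bmin_le _ _

private lemma big {n l : ℕ} (h : n ≤ l) :
    5 * (2 * (n * n) + 4) ≤ (l + 2) ^ 8 ∧ 2 * (n * n) + 2 < (l + 2) ^ 8 := by
  set X := l + 2 with hX
  have h1 : n * n ≤ l * l := Nat.mul_le_mul h h
  have h2 : l * l + 2 ≤ X ^ 2 := by
    rw [hX, pow_two]
    nlinarith
  have hX2 : 2 ≤ X := by omega
  have h3 : 2 ^ 6 ≤ X ^ 6 := Nat.pow_le_pow_left hX2 6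
  have h4 : X ^ 6 * X ^ 2 = X ^ 8 := by ring
  have h5 : 2 ^ 6 * X ^ 2 ≤ X ^ 6 * X ^ 2 := Nat.mul_le_mul_right _ h3
  have h6 : 0 < X ^ 2 := by positivity
  constructor <;> omega

private lemma pw_eq {N b e : ℕ} (h : b ^ e ≤ N) : pw N b e = b ^ e := by
  unfold pw
  exact min_eq_left (by omega)

private lemma three_le (e : ℕ) : 3 ^ e ≤ 2 ^ (2 * e) := by
  rw [pow_mul]
  exact Nat.pow_le_pow_left (by norm_num) e

private lemma dg_ofDigits (B : ℕ) (hB : 0 < B) (l : List ℕ) (hl : ∀ x ∈ l, x < B) (i : ℕ) :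
    dg B (Nat.ofDigits B l) i = l.getD i 0 := by
  induction l generalizing i with
  | nil => simp [dg]
  | cons a l ih =>
    have ha : a < B := hl a (by simp)
    have hl' : ∀ x ∈ l, x < B := fun x hx => hl x (by simp [hx])
    rw [Nat.ofDigits_cons]
    cases i with
    | zero =>
      simp only [dg, pow_zero, Nat.div_one, List.getD_cons_zero, Nat.cast_id]
      rw [Nat.add_mul_mod_self_left, Nat.mod_eq_of_lt ha]
    | succ i =>
      rw [List.getD_cons_succ, ← ih hl' i]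
      simp only [dg, Nat.cast_id]
      rw [pow_succ', ← Nat.div_div_eq_div_mul, Nat.add_mul_div_left _ _ hB, Nat.div_eq_of_lt ha,
        zero_add]

theorem hFLE : StFLE := by
  intro w
  obtain ⟨hb1, hb2⟩ := big (n_le w)
  have hN : 2 ^ (5 * (2 * (nV w * nV w) + 4)) ≤ NN 8 w := by
    unfold NN
    calc 2 ^ (5 * (2 * (nV w * nV w) + 4)) ≤ 2 ^ ((w.length + 2) ^ 8) :=
          Nat.pow_le_pow_right (by norm_num) hb1
      _ ≤ (w.length + 2) ^ ((w.length + 2) ^ 8) := Nat.pow_le_pow_left (by omega) _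
  set n2 := nV w * nV w with hn2
  have hN2 : 2 ^ (2 * n2 + 4) ≤ NN 8 w :=
    (Nat.pow_le_pow_right (by norm_num) (by omega)).trans hN
  have h3 : 3 ^ n2 ≤ 2 ^ (2 * n2) := three_le n2
  have h16 : 2 ^ (2 * n2 + 4) = 16 * 2 ^ (2 * n2) := by rw [pow_add]; ring
  have hpos : 1 ≤ 2 ^ (2 * n2) := Nat.one_le_two_pow
  have h3N : 3 ^ n2 ≤ NN 8 w := by omega
  have h3p : ∀ p ≤ n2, pw (NN 8 w) 3 p = 3 ^ p := fun p hp =>
    pw_eq ((Nat.pow_le_pow_right (by norm_num) hp).trans h3N)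
  have hB : PhE (NN 8 w) w = 2 ^ (2 * n2 + 4) := pw_eq hN2
  refine ⟨h3p n2 le_rfl, h3N, h3p, by omega, hb2, ?_⟩
  rintro T k u v c ⟨hT1, hT3, hk, hu, hv, hc⟩
  rw [← hn2] at hk hu hv
  set B : ℕ := PhE (NN 8 w) w with hBdef
  have hk2 : n2 * 2 < 2 ^ (2 * n2) := by
    rw [mul_comm]; exact Nat.lt_two_pow_self
  have hall : ∀ y ∈ [T, k, u, v, c], y < B := by
    intro y hy
    simp only [List.mem_cons, List.not_mem_nil, or_false] at hy
    rcases hy with rfl | rfl | rfl | rfl | rfl <;> omega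
  have hB0 : 0 < B := by omega
  have hfi : ∀ i, fE (NN 8 w) w (zE (NN 8 w) w T k u v c) i = [T, k, u, v, c].getD i 0 :=
    fun i => dg_ofDigits B hB0 _ hall i
  have f0 := hfi 0
  have f1 := hfi 1
  have f2 := hfi 2
  have f3 := hfi 3
  have f4 := hfi 4
  simp only [List.getD_cons_zero, List.getD_cons_succ] at f0 f1 f2 f3 f4
  refine ⟨f0, f1, f2, f3, f4, ?_⟩
  calc zE (NN 8 w) w T k u v c < B ^ 5 :=
        Nat.ofDigits_lt_base_pow_length (by omega) hall
    _ = 2 ^ (5 * (2 * n2 + 4)) := by rw [hB, ← pow_mul, mul_comm]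
    _ ≤ NN 8 w := hN

end Pool.Agent.Helper57.GU
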